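import Mathlib
import Pool.Agent.H338R2.Smyth2

/-!
# The inequality of Smyth and Schinzel for one complex polynomial
-/

set_option autoImplicit false

open Polynomial

namespace Pool.Agent.R701.UG

open Pool.Agent.H338R2

/-- product of the absolute values outside the unit disc -/
noncomputable def up (R : Multiset ℂ) : ℝ := (R.map (fun a => max 1 ‖a‖)).prod

/-- product of the absolute values inside the unit disc -/
noncomputable def lo (R : Multiset ℂ) : ℝ := (R.map (fun a => min 1 ‖a‖)).prod

theorem one_le_up (R : Multiset ℂ) : 1 ≤ up R := by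
  induction R using Multiset.induction_on with
  | empty => simp [up]
  | cons a R ih =>
    rw [up, Multiset.map_cons, Multiset.prod_cons]
    exact one_le_mul_of_one_le_of_one_le (le_max_left _ _) ih

theorem lo_nonneg (R : Multiset ℂ) : 0 ≤ lo R := by
  induction R using Multiset.induction_on with
  | empty => simp [lo]
  | cons a R ih =>
    rw [lo, Multiset.map_cons, Multiset.prod_cons]
    exact mul_nonneg (le_min zero_le_one (norm_nonneg _)) ih

theorem lo_le_one (R : Multiset ℂ) : lo R ≤ 1 := by
  induction R using Multiset.induction_on with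
  | empty => simp [lo]
  | cons a R ih =>
    rw [lo, Multiset.map_cons, Multiset.prod_cons]
    exact mul_le_one₀ (min_le_left _ _) (lo_nonneg R) ih

theorem up_mul_lo (R : Multiset ℂ) : up R * lo R = (R.map (fun a => ‖a‖)).prod := by
  rw [up, lo, ← Multiset.prod_map_mul]
  congr 1
  refine Multiset.map_congr rfl fun a _ => ?_
  rw [max_mul_min, one_mul]

theorem up_mono {R S : Multiset ℂ} (h : R ≤ S) : up R ≤ up S := by
  obtain ⟨T, rfl⟩ := Multiset.le_iff_exists_add.1 h
  have e : up (R + T) = up R * up T := by simp [up]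
  rw [e]
  exact le_mul_of_one_le_right (zero_le_one.trans (one_le_up R)) (one_le_up T)

theorem lo_anti {R S : Multiset ℂ} (h : R ≤ S) : lo S ≤ lo R := by
  obtain ⟨T, rfl⟩ := Multiset.le_iff_exists_add.1 h
  have e : lo (R + T) = lo R * lo T := by simp [lo]
  rw [e]
  exact mul_le_of_le_one_right (lo_nonneg R) (lo_le_one T)

/-- the polynomial with roots `R` -/
noncomputable def pl (R : Multiset ℂ) : ℂ[X] := (R.map (fun a => (X - C a : ℂ[X]))).prod

/-- the reciprocal polynomial -/
noncomputable def pr (R : Multiset ℂ) : ℂ[X] :=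
  (R.map (fun a => (1 - C (starRingEnd ℂ a) * X : ℂ[X]))).prod

theorem rel_ineq (R : Multiset ℂ) (h0 : ∀ a ∈ R, a ≠ 0) (w : ℂ[X]) (u : ℂ)
    (hw : w = pl R - C u * pr R) (hu : (pl R).coeff 0 = u) (k : ℕ) (hk : w.coeff k ≠ 0)
    (hlt : ∀ i < k, w.coeff i = 0) : ‖w.coeff k‖ ≤ up R ^ 2 - lo R ^ 2 := by
  classical
  have hpr0 : (pr R).coeff 0 = 1 := by
    rw [pr, Polynomial.coeff_zero_multiset_prod, Multiset.map_map]
    apply Multiset.prod_eq_one
    intro x hx
    obtain ⟨a, _, rfl⟩ := Multiset.mem_map.1 hx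
    simp
  have hkpos : 0 < k := by
    rw [Nat.pos_iff_ne_zero]
    rintro rfl
    apply hk
    rw [hw, coeff_sub, coeff_C_mul, hpr0, hu]
    ring
  set s := R.filter (fun a => ‖a‖ ≤ 1) with hs
  set t := R.filter (fun a => ¬ ‖a‖ ≤ 1) with ht
  have hst : s + t = R := Multiset.filter_add_not _ _
  obtain ⟨F, hF1, hF2⟩ := exists_inner s (fun a ha => (Multiset.mem_filter.1 ha).2)
  obtain ⟨H, hH1, hH2⟩ := exists_inner' t (fun a ha => not_le.1 (Multiset.mem_filter.1 ha).2)
  have hPS : ∀ m : Multiset ℂ, ((pl m : ℂ[X]) : PowerSeries ℂ) = (m.map uB).prod := by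
    intro m
    induction m using Multiset.induction_on with
    | empty => simp [pl]
    | cons a m ih =>
      rw [pl] at ih ⊢
      rw [Multiset.map_cons, Multiset.prod_cons, Multiset.map_cons, Multiset.prod_cons,
        Polynomial.coe_mul, ih, toPS_X_sub_C]
  have hPR : ∀ m : Multiset ℂ, ((pr m : ℂ[X]) : PowerSeries ℂ) = (m.map uA).prod := by
    intro m
    induction m using Multiset.induction_on with
    | empty => simp [pr]
    | cons a m ih =>
      rw [pr] at ih ⊢
      rw [Multiset.map_cons, Multiset.prod_cons, Multiset.map_cons, Multiset.prod_cons,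
        Polynomial.coe_mul, ih]
      congr 1
      rw [uA]
      simp
  have hid : F * ((pr R : ℂ[X]) : PowerSeries ℂ) = H * ((pl R : ℂ[X]) : PowerSeries ℂ) := by
    rw [hPS, hPR, ← hst, Multiset.map_add, Multiset.prod_add, Multiset.map_add,
      Multiset.prod_add, ← mul_assoc, hF1, ← hH1]
    ring
  obtain ⟨w', hw'⟩ : X ^ k ∣ w := Polynomial.X_pow_dvd_iff.2 hlt
  have hw'0 : w'.coeff 0 = w.coeff k := by
    rw [hw', mul_comm, Polynomial.coeff_mul_X_pow']
    simp
  have hfw : ((pl R : ℂ[X]) : PowerSeries ℂ) =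
      PowerSeries.C u * ((pr R : ℂ[X]) : PowerSeries ℂ) +
        PowerSeries.X ^ k * ((w' : ℂ[X]) : PowerSeries ℂ) := by
    have h1 : pl R = C u * pr R + X ^ k * w' := by rw [← hw', hw]; ring
    have h2 := congrArg (fun q : ℂ[X] => (q : PowerSeries ℂ)) h1
    simp only [Polynomial.coe_add, Polynomial.coe_mul, Polynomial.coe_C,
      Polynomial.coe_pow, Polynomial.coe_X] at h2
    exact h2
  set rv : PowerSeries ℂ := ((pr R : ℂ[X]) : PowerSeries ℂ) with hrv
  have hrv0 : PowerSeries.constantCoeff rv = 1 := by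
    rw [hrv, Polynomial.constantCoeff_coe, hpr0]
  have hrvunit : rv * rv⁻¹ = 1 := PowerSeries.mul_inv_cancel _ (by rw [hrv0]; exact one_ne_zero)
  have hΔ : F - H * PowerSeries.C u = PowerSeries.X ^ k * (H * (w' : PowerSeries ℂ) * rv⁻¹) := by
    have h1 : (F - H * PowerSeries.C u) * rv = PowerSeries.X ^ k * (H * (w' : PowerSeries ℂ)) := by
      rw [sub_mul, hid, hfw]
      ring
    calc F - H * PowerSeries.C u = (F - H * PowerSeries.C u) * (rv * rv⁻¹) := by
          rw [hrvunit, mul_one]
      _ = ((F - H * PowerSeries.C u) * rv) * rv⁻¹ := by ring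
      _ = _ := by rw [h1]; ring
  have hck : PowerSeries.coeff k F - PowerSeries.coeff k H * u =
      PowerSeries.coeff 0 H * w.coeff k := by
    have h1 := congrArg (PowerSeries.coeff k) hΔ
    rw [map_sub, PowerSeries.coeff_mul_C, PowerSeries.coeff_X_pow_mul'] at h1
    rw [h1, if_pos le_rfl, Nat.sub_self]
    have h2 : PowerSeries.constantCoeff (rv⁻¹) = 1 := by
      rw [PowerSeries.constantCoeff_inv, hrv0, inv_one]
    rw [PowerSeries.coeff_zero_eq_constantCoeff_apply, map_mul, map_mul, h2, mul_one,
      Polynomial.constantCoeff_coe, hw'0, PowerSeries.coeff_zero_eq_constantCoeff_apply]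
  have hUA : ∀ m : Multiset ℂ, ‖PowerSeries.constantCoeff (m.map uA).prod‖ = 1 := by
    intro m
    induction m using Multiset.induction_on with
    | empty => simp
    | cons a m ih =>
      rw [Multiset.map_cons, Multiset.prod_cons, map_mul, norm_mul, ih]
      simp [uA]
  have hUB : ∀ m : Multiset ℂ, ‖PowerSeries.constantCoeff (m.map uB).prod‖ =
      (m.map (fun a => ‖a‖)).prod := by
    intro m
    induction m using Multiset.induction_on with
    | empty => simp
    | cons a m ih =>
      rw [Multiset.map_cons, Multiset.prod_cons, map_mul, norm_mul, ih, Multiset.map_cons,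
        Multiset.prod_cons]
      congr 1
      simp [uB]
  have hup : up R = (t.map (fun a => ‖a‖)).prod := by
    rw [up, ← hst, Multiset.map_add, Multiset.prod_add]
    have h5 : (s.map (fun a => max 1 ‖a‖)).prod = 1 := by
      apply Multiset.prod_eq_one
      intro x hx
      obtain ⟨a, ha, rfl⟩ := Multiset.mem_map.1 hx
      exact max_eq_left (Multiset.mem_filter.1 ha).2
    have h6 : t.map (fun a => max 1 ‖a‖) = t.map (fun a => ‖a‖) := by
      apply Multiset.map_congr rfl
      intro a ha
      exact max_eq_right (not_le.1 (Multiset.mem_filter.1 ha).2).le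
    rw [h5, h6, one_mul]
  have hlo : lo R = (s.map (fun a => ‖a‖)).prod := by
    rw [lo, ← hst, Multiset.map_add, Multiset.prod_add]
    have h5 : (t.map (fun a => min 1 ‖a‖)).prod = 1 := by
      apply Multiset.prod_eq_one
      intro x hx
      obtain ⟨a, ha, rfl⟩ := Multiset.mem_map.1 hx
      exact min_eq_left (not_le.1 (Multiset.mem_filter.1 ha).2).le
    have h6 : s.map (fun a => min 1 ‖a‖) = s.map (fun a => ‖a‖) := by
      apply Multiset.map_congr rfl
      intro a ha
      exact min_eq_right (Multiset.mem_filter.1 ha).2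
    rw [h5, h6, mul_one]
  have hH0 : ‖PowerSeries.coeff 0 H‖ * up R = 1 := by
    have h1 := congrArg (fun v => ‖PowerSeries.constantCoeff v‖) hH1
    simp only [map_mul, norm_mul] at h1
    rw [hUA, hUB, ← hup] at h1
    rw [PowerSeries.coeff_zero_eq_constantCoeff_apply]
    exact h1
  have hF0 : ‖PowerSeries.coeff 0 F‖ = lo R := by
    have h1 := congrArg (fun v => ‖PowerSeries.constantCoeff v‖) hF1
    simp only [map_mul, norm_mul] at h1
    rw [hUA, hUB, ← hlo, mul_one] at h1
    rw [PowerSeries.coeff_zero_eq_constantCoeff_apply]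
    exact h1
  have hun : ‖u‖ = up R * lo R := by
    rw [up_mul_lo, ← hUB R, ← hPS R, Polynomial.constantCoeff_coe, hu]
  have hup1 := one_le_up R
  have hupos : 0 < up R := by linarith
  have hlopos : 0 < lo R := by
    have h1 : 0 < ‖u‖ := by
      rw [hun, up_mul_lo]
      apply Multiset.prod_pos
      intro x hx
      obtain ⟨a, ha, rfl⟩ := Multiset.mem_map.1 hx
      exact norm_pos_iff.2 (h0 a ha)
    rw [hun] at h1
    exact pos_of_mul_pos_right h1 hupos.le
  have hlo1 := lo_le_one R
  have he0 : ‖PowerSeries.coeff 0 H‖ = 1 / up R := by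
    field_simp
    exact hH0
  have hHne : PowerSeries.coeff 0 H ≠ 0 := by
    intro h
    rw [h, norm_zero, zero_mul] at hH0
    exact zero_ne_one hH0
  have hFne : PowerSeries.coeff 0 F ≠ 0 := by
    intro h
    rw [h, norm_zero] at hF0
    exact hlopos.ne hF0
  have b1 := coeff_bound F hF2 k hkpos hFne
  have b2 := coeff_bound H hH2 k hkpos hHne
  rw [hF0] at b1
  rw [he0] at b2
  have b3 : 1 / up R * ‖w.coeff k‖ ≤
      ‖PowerSeries.coeff k F‖ + ‖PowerSeries.coeff k H‖ * (up R * lo R) := by
    have h1 := congrArg (fun v => ‖v‖) hck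
    simp only [norm_mul, he0] at h1
    have h3 := norm_sub_le (PowerSeries.coeff k F) (PowerSeries.coeff k H * u)
    rw [h1, norm_mul, hun] at h3
    exact h3
  have b4 : 1 / up R * ‖w.coeff k‖ ≤ (1 - lo R ^ 2) + (1 - (1 / up R) ^ 2) * (up R * lo R) := by
    have : ‖PowerSeries.coeff k H‖ * (up R * lo R) ≤ (1 - (1 / up R) ^ 2) * (up R * lo R) :=
      mul_le_mul_of_nonneg_right b2 (by positivity)
    linarith
  have b5 := mul_le_mul_of_nonneg_right b4 hupos.le
  have e1 : 1 / up R * ‖w.coeff k‖ * up R = ‖w.coeff k‖ := by field_simp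
  have e2 : ((1 - lo R ^ 2) + (1 - (1 / up R) ^ 2) * (up R * lo R)) * up R =
      (up R - lo R) * (1 + up R * lo R) := by field_simp; ring
  rw [e1, e2] at b5
  have b6 : (up R - lo R) * (1 + up R * lo R) ≤ (up R - lo R) * (up R + lo R) := by
    apply mul_le_mul_of_nonneg_left _ (by linarith)
    nlinarith
  calc ‖w.coeff k‖ ≤ (up R - lo R) * (up R + lo R) := b5.trans b6
    _ = up R ^ 2 - lo R ^ 2 := by ring

end Pool.Agent.R701.UG
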