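import Mathlib
import Pool.Agent.R701.UG.Rel
import Pool.Agent.W963.GE.Conj

/-!
# Lower bound for the Mahler measure of units that are not reciprocal over a totally real or CM field
-/

set_option autoImplicit false

open Polynomial ComplexConjugate

namespace Pool.Agent.R701.UG

open Pool.Agent.H338R2 Pool.Agent.W963.GE

theorem exists_large {K : Type*} [Field K] [NumberField K] (a : K) (ha : IsIntegral ℤ a)
    (h0 : a ≠ 0) : ∃ σ : K →+* ℂ, 1 ≤ ‖σ a‖ := by
  by_contra hcon
  push Not at hcon
  have h1 := Algebra.norm_eq_prod_embeddings ℚ ℂ a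
  have h2 : IsIntegral ℤ (Algebra.norm ℚ a) := Algebra.isIntegral_norm ℚ ha
  obtain ⟨n, hn⟩ := IsIntegrallyClosed.isIntegral_iff.1 h2
  have hn0 : n ≠ 0 := by
    rintro rfl
    rw [map_zero] at hn
    exact h0 (Algebra.norm_eq_zero_iff.1 hn.symm)
  have h3 : ‖algebraMap ℚ ℂ (Algebra.norm ℚ a)‖ < 1 := by
    rw [h1, norm_prod]
    have hne : Nonempty (K →ₐ[ℚ] ℂ) := ⟨IsAlgClosed.lift⟩
    calc ∏ σ : K →ₐ[ℚ] ℂ, ‖σ a‖ < ∏ σ : K →ₐ[ℚ] ℂ, (1 : ℝ) := by
          apply Finset.prod_lt_prod_of_nonempty
          · intro σ _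
            apply norm_pos_iff.2
            exact fun h => h0 ((map_eq_zero_iff σ σ.injective).1 h)
          · intro σ _
            exact hcon σ.toRingHom
          · exact Finset.univ_nonempty
      _ = 1 := by simp
  rw [← hn] at h3
  have h4 : algebraMap ℚ ℂ (algebraMap ℤ ℚ n) = (n : ℂ) := by simp
  rw [h4, Complex.norm_intCast] at h3
  have h5 : (1 : ℝ) ≤ |(n : ℝ)| := by
    have := Int.one_le_abs hn0
    exact_mod_cast this
  linarith

/-- the constant coefficient of the minimal polynomial of a unit -/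
theorem coeff_unit {z : ℂ} (hz : IsIntegral ℤ z) (h0 : z ≠ 0) (hi : IsIntegral ℤ z⁻¹) :
    |(minpoly ℤ z).coeff 0| = 1 := by
  have hg := minpoly.monic hi
  have h1 : aeval z (minpoly ℤ z⁻¹).reverse = 0 := by
    let _ : Invertible z⁻¹ := invertibleOfNonzero (inv_ne_zero h0)
    have h2 := (Polynomial.eval₂_reverse_eq_zero_iff (algebraMap ℤ ℂ) z⁻¹ (minpoly ℤ z⁻¹)).2
      (minpoly.aeval ℤ z⁻¹)
    rw [invOf_eq_inv, inv_inv] at h2
    exact h2
  have h2 : minpoly ℤ z ∣ (minpoly ℤ z⁻¹).reverse := minpoly.isIntegrallyClosed_dvd hz h1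
  have h3 : (minpoly ℤ z).coeff 0 ∣ ((minpoly ℤ z⁻¹).reverse).coeff 0 := by
    obtain ⟨q, hq⟩ := h2
    rw [hq, Polynomial.mul_coeff_zero]
    exact dvd_mul_right _ _
  rw [Polynomial.coeff_zero_reverse, hg.leadingCoeff] at h3
  exact Int.isUnit_iff_abs_eq.1 (isUnit_of_dvd_one h3)

theorem pl_roots {P : ℂ[X]} (hP : P.Monic) : P = pl P.roots :=
  (IsAlgClosed.splits P).eq_prod_roots_of_monic hP

theorem norm_pl_zero (R : Multiset ℂ) : ‖(pl R).coeff 0‖ = up R * lo R := by
  rw [up_mul_lo]
  induction R using Multiset.induction_on with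
  | empty => simp [pl]
  | cons a R ih =>
    rw [pl] at ih ⊢
    rw [Multiset.map_cons, Multiset.prod_cons, Polynomial.mul_coeff_zero, norm_mul, ih,
      Multiset.map_cons, Multiset.prod_cons]
    simp

theorem rel_bound {K : Type*} [Field K] [NumberField K] [Algebra K ℂ] (c : K →+* K)
    (hc : ∀ (σ : K →+* ℂ) (y : K), conj (σ y) = σ (c y)) {z : ℂ} (hz : IsIntegral ℤ z)
    (h0 : z ≠ 0) (hi : IsIntegral ℤ z⁻¹) (hne : aeval (conj z)⁻¹ (minpoly K z) ≠ 0) :
    1 ≤ MM z ^ 2 - 1 / MM z ^ 2 := by
  have hzK : IsIntegral K z := hz.tower_top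
  set F := minpoly K z with hF
  have hFm : F.Monic := minpoly.monic hzK
  set w : K[X] := F - C (F.coeff 0) * (F.map c).reverse with hw
  have hz' : conj z ≠ 0 := fun h => h0 ((map_eq_zero_iff _ (starRingEnd ℂ).injective).1 h)
  have hw0 : w ≠ 0 := by
    intro h
    apply hne
    have h1 : F = C (F.coeff 0) * (F.map c).reverse := sub_eq_zero.1 h
    rw [h1, map_mul, aeval_C]
    have h2 : aeval (conj z)⁻¹ (F.map c).reverse = 0 := by
      let _ : Invertible (conj z) := invertibleOfNonzero hz'
      have h3 := (Polynomial.eval₂_reverse_eq_zero_iff (algebraMap K ℂ) (conj z) (F.map c)).2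
      rw [invOf_eq_inv] at h3
      apply h3
      rw [Polynomial.eval₂_map]
      have e : (algebraMap K ℂ).comp c = (starRingEnd ℂ).comp (algebraMap K ℂ) := by
        ext y
        exact (hc (algebraMap K ℂ) y).symm
      rw [e, ← Polynomial.hom_eval₂]
      have : eval₂ (algebraMap K ℂ) z F = 0 := minpoly.aeval K z
      rw [this, map_zero]
    rw [h2, mul_zero]
  set k := w.natTrailingDegree with hk
  have hak : w.coeff k ≠ 0 := by
    rw [hk]
    exact mt Polynomial.trailingCoeff_eq_zero.1 hw0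
  have hlt : ∀ i < k, w.coeff i = 0 := fun i hi =>
    Polynomial.coeff_eq_zero_of_lt_natTrailingDegree hi
  -- integrality of the coefficients
  have hFd : F ∣ (minpoly ℤ z).map (algebraMap ℤ K) := by
    apply minpoly.dvd
    rw [Polynomial.aeval_map_algebraMap, minpoly.aeval]
  have hFi : ∀ i, IsIntegral ℤ (F.coeff i) := by
    intro i
    exact Polynomial.isIntegral_coeff_of_dvd (minpoly ℤ z) F (minpoly.monic hz) hFm hFd i
  have hai : IsIntegral ℤ (w.coeff k) := by
    rw [hw, coeff_sub, coeff_C_mul, Polynomial.coeff_reverse, coeff_map]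
    exact (hFi _).sub ((hFi _).mul (map_isIntegral_int c (hFi _)))
  obtain ⟨σ, hσ⟩ := exists_large (w.coeff k) hai hak
  set R := (F.map σ).roots with hR
  have hFσ : F.map σ = pl R := pl_roots (hFm.map σ)
  have hrev : ((F.map c).reverse).map σ = pr R := by
    have h1 : ((F.map c).reverse).map σ = ((F.map c).map σ).reverse := by
      ext n
      rw [Polynomial.coeff_reverse, Polynomial.coeff_map, Polynomial.coeff_map,
        Polynomial.coeff_reverse]
      simp only [Polynomial.natDegree_map, Polynomial.coeff_map]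
    have h2 : (F.map c).map σ = (F.map σ).map (starRingEnd ℂ) := by
      rw [Polynomial.map_map, Polynomial.map_map]
      congr 1
      ext y
      exact (hc σ y).symm
    have h3 : (F.map σ).map (starRingEnd ℂ) =
        ((R.map (starRingEnd ℂ)).map (fun a => (X - C a : ℂ[X]))).prod := by
      rw [hFσ, pl, Polynomial.map_multiset_prod, Multiset.map_map, Multiset.map_map]
      congr 1
      apply Multiset.map_congr rfl
      intro a _
      simp
    rw [h1, h2, h3, reverse_prod, Multiset.map_map]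
    rfl
  have hwσ : w.map σ = pl R - C (σ (F.coeff 0)) * pr R := by
    rw [hw, Polynomial.map_sub, Polynomial.map_mul, Polynomial.map_C, hrev, hFσ]
  have hF0 : F.coeff 0 ≠ 0 := minpoly.coeff_zero_ne_zero hzK h0
  have hR0 : ∀ a ∈ R, a ≠ 0 := by
    rintro a ha rfl
    have h1 := (Polynomial.mem_roots'.1 ha).2
    rw [Polynomial.IsRoot, ← Polynomial.coeff_zero_eq_eval_zero, coeff_map] at h1
    exact hF0 ((map_eq_zero_iff σ σ.injective).1 h1)
  have hmain := rel_ineq R hR0 (w.map σ) (σ (F.coeff 0)) hwσ (by rw [← hFσ, coeff_map]) k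
    (by rw [coeff_map]; exact fun h => hak ((map_eq_zero_iff σ σ.injective).1 h))
    (fun i hi => by rw [coeff_map, hlt i hi, map_zero])
  rw [coeff_map] at hmain
  set f := minpoly ℤ z with hf
  have hfm : f.Monic := minpoly.monic hz
  set S := (f.map (Int.castRingHom ℂ)).roots with hS
  have hRS : R ≤ S := by
    apply Polynomial.roots.le_of_dvd
    · exact (hfm.map _).ne_zero
    · have h1 := Polynomial.map_dvd σ hFd
      rw [Polynomial.map_map] at h1
      have e : σ.comp (algebraMap ℤ K) = Int.castRingHom ℂ := RingHom.ext_int _ _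
      rw [e] at h1
      exact h1
  have hupS : up S = MM z := (MZ_monic hfm).symm
  have hS1 : up S * lo S = 1 := by
    rw [← norm_pl_zero, ← pl_roots (hfm.map _), coeff_map]
    have := coeff_unit hz h0 hi
    rw [eq_intCast, Complex.norm_intCast]
    exact_mod_cast this
  have hM1 : 1 ≤ MM z := hupS ▸ one_le_up S
  have hM0 : 0 < MM z := by linarith
  have hloS : lo S = 1 / MM z := by
    rw [hupS] at hS1
    field_simp
    linarith
  have a1 : up R ^ 2 ≤ MM z ^ 2 := by
    have h1 := up_mono hRS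
    rw [hupS] at h1
    exact pow_le_pow_left₀ (zero_le_one.trans (one_le_up R)) h1 2
  have a2 : 1 / MM z ^ 2 ≤ lo R ^ 2 := by
    have h1 := lo_anti hRS
    rw [hloS] at h1
    have h2 := pow_le_pow_left₀ (by positivity) h1 2
    rw [div_pow, one_pow] at h2
    exact h2
  linarith

end Pool.Agent.R701.UG
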