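import Mathlib
import Pool.Agent.R701.UG.Fld
import Pool.Agent.TH53.UG6

/-!
# Uniform growth gap when the eigenvalues are not reciprocal over totally real or CM fields
-/

set_option autoImplicit false

open Filter Topology Polynomial
open scoped Pointwise commutatorElement TensorProduct ComplexConjugate

namespace Pool.Agent.R701.UG

open Pool.Agent.W963.GE Pool.Agent.TH53.UG

universe u

theorem base_eighth {M : ℝ} (hM : 0 < M) (h : 1 ≤ M ^ 2 - 1 / M ^ 2) :
    1 / 8 ≤ Real.log (base M) := by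
  have h0 : 0 < M ^ 2 := by positivity
  have h1 : (8 / 5 : ℝ) ≤ M ^ 2 := by
    by_contra hcon
    push Not at hcon
    have h3 : 5 / 8 < 1 / M ^ 2 := by
      rw [lt_div_iff₀ h0]
      linarith
    linarith
  have h2 : 1 / M ^ 2 ≤ 5 / 8 := by
    rw [div_le_iff₀ h0]
    linarith
  have h3 := base_exp hM (δ := 3 / 8) (by linarith) (by norm_num) (by norm_num)
  linarith

/-- `K` is totally real or a CM field: complex conjugation comes from an endomorphism of `K` which
does not depend on the embedding of `K` in `ℂ`. -/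
def RealOrCM (K : IntermediateField ℚ ℂ) : Prop :=
  ∃ c : K →+* K, ∀ (σ : K →+* ℂ) (y : K), conj (σ y) = σ (c y)

/-- For some number field `K` in `ℂ`, totally real or CM, the number `1 / conj z` is not a conjugate
of `z` over `K`. -/
def NotRecip (z : ℂ) : Prop :=
  ∃ K : IntermediateField ℚ ℂ, FiniteDimensional ℚ K ∧ RealOrCM K ∧
    aeval (conj z)⁻¹ (minpoly K z) ≠ 0

theorem one_le_of_notRecip {z : ℂ} (hz : IsIntegral ℤ z) (h0 : z ≠ 0) (hi : IsIntegral ℤ z⁻¹)
    (h : NotRecip z) : 1 ≤ MM z ^ 2 - 1 / MM z ^ 2 := by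
  obtain ⟨K, hK, ⟨c, hc⟩, hne⟩ := h
  have : NumberField K := { to_charZero := inferInstance, to_finiteDimensional := hK }
  exact rel_bound c hc hz h0 hi hne

/-- **eigenvalues that are not reciprocal over totally real or CM fields** -/
theorem gap_rel {k d : ℕ} (hk : 1 ≤ k) {G : Type u} [Group G] (S : Set G)
    (hfin : S.Finite) (hgen : Subgroup.closure S = ⊤) (H : Subgroup G) (hH0 : H.index ≠ 0)
    (hHd : H.index ≤ d)
    (hnil : Group.IsNilpotent (gam H k) ∨ ¬ Group.IsVirtuallyNilpotent (H ⧸ ⁅gam H k, gam H k⁆))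
    (hrec : ∀ (t : H) (z : ℂ), Module.End.HasEigenvalue
      (LinearMap.baseChange ℂ (act (gam H k) t) :
        Module.End ℂ (ℂ ⊗[ℤ] (Additive (Abelianization (gam H k))))) z →
      z ≠ 0 → IsIntegral ℤ z → IsIntegral ℤ z⁻¹ → (∀ n > 0, z ^ n ≠ 1) → NotRecip z) :
    Group.IsVirtuallyNilpotent G ∨ 1 / (2 ^ (k + 4) * (2 * d - 1)) ≤ H746UG.rho S := by
  have e : (1 : ℝ) / (2 ^ (k + 4) * (2 * d - 1)) = (1 / 8) / (2 ^ (k + 1) * (2 * d - 1)) := by
    rw [div_div]
    congr 1
    ring
  rw [e]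
  refine gap_general hk S hfin hgen H hH0 hHd hnil ?_ ?_
  · have := Real.log_two_gt_d9
    linarith
  · intro hMf t b x hx0 hx hp
    have hxi : IsIntegral ℤ x := integral_of_root _ b hp
    by_cases hi : IsIntegral ℤ x⁻¹
    · have hE := eig_of_root (act (gam H k) t) b hp (minpoly.aeval ℤ x)
      have h1 := one_le_of_notRecip hxi hx0 hi (hrec t x hE hx0 hxi hi hx)
      have hM : 0 < MM x := zero_lt_one.trans_le (MM_ge x hxi)
      exact (base_eighth hM h1).trans (eta_ge x hx0 hxi)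
    · rw [H746UG.eta_eq_log_two x hx0 (fun h => hi h.2)]
      have := Real.log_two_gt_d9
      linarith

theorem realOrCM_bot : RealOrCM ⊥ := by
  refine ⟨RingHom.id _, ?_⟩
  intro σ y
  obtain ⟨q, hq⟩ := (IntermediateField.mem_bot).1 y.2
  have h1 : y = algebraMap ℚ (⊥ : IntermediateField ℚ ℂ) q := Subtype.ext hq.symm
  rw [h1, RingHom.id_apply]
  have h2 : σ (algebraMap ℚ (⊥ : IntermediateField ℚ ℂ) q) = (q : ℂ) := by simp
  rw [h2]
  simp

theorem eq_int_of_root {f : ℤ[X]} (hf : Irreducible f) {z : ℂ} (hz : aeval z f = 0) (m : ℤ)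
    (hm : f.eval m = 0) : z = m := by
  obtain ⟨q, hq⟩ := Polynomial.dvd_iff_isRoot.2 hm
  have h1 : IsUnit q := by
    rcases hf.isUnit_or_isUnit hq with h | h
    · exact absurd h (Polynomial.not_isUnit_X_sub_C m)
    · exact h
  obtain ⟨r, hr, hrq⟩ := Polynomial.isUnit_iff.1 h1
  rw [hq, ← hrq, map_mul, aeval_C] at hz
  rcases mul_eq_zero.1 hz with h | h
  · rw [map_sub, aeval_X, aeval_C] at h
    simpa using sub_eq_zero.1 h
  · exfalso
    have h2 : ((r : ℤ) : ℂ) = 0 := by simpa using h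
    have h3 : r = 0 := by exact_mod_cast h2
    rw [h3] at hr
    exact not_isUnit_zero hr

/-- units of odd degree are not reciprocal over `ℚ` -/
theorem notRecip_of_odd {z : ℂ} (hz : IsIntegral ℤ z) (h0 : z ≠ 0) (hi : IsIntegral ℤ z⁻¹)
    (hroot : ∀ n > 0, z ^ n ≠ 1) (hodd : Odd (minpoly ℤ z).natDegree) : NotRecip z := by
  refine ⟨⊥, inferInstance, realOrCM_bot, fun h => ?_⟩
  have hu := coeff_unit hz h0 hi
  set f := minpoly ℤ z with hf
  have hfm : f.Monic := minpoly.monic hz
  have hirr : Irreducible f := minpoly.irreducible hz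
  have hd : minpoly (⊥ : IntermediateField ℚ ℂ) z ∣
      f.map (algebraMap ℤ (⊥ : IntermediateField ℚ ℂ)) :=
    minpoly.dvd _ _ (by rw [aeval_map_algebraMap, minpoly.aeval])
  have h1 : aeval (conj z)⁻¹ f = 0 := by
    obtain ⟨q, hq⟩ := hd
    rw [← aeval_map_algebraMap (⊥ : IntermediateField ℚ ℂ), hq, map_mul, h, zero_mul]
  have h2 : aeval z⁻¹ f = 0 := by
    have h3 := congrArg (starRingEnd ℂ) h1
    rw [map_zero, aeval_def, Polynomial.hom_eval₂] at h3
    have e : (starRingEnd ℂ).comp (algebraMap ℤ ℂ) = algebraMap ℤ ℂ := RingHom.ext_int _ _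
    rw [e, map_inv₀, Complex.conj_conj] at h3
    exact h3
  have h3 : aeval z f.reverse = 0 := by
    let _ : Invertible z⁻¹ := invertibleOfNonzero (inv_ne_zero h0)
    have h4 := (Polynomial.eval₂_reverse_eq_zero_iff (algebraMap ℤ ℂ) z⁻¹ f).2 h2
    rw [invOf_eq_inv, inv_inv] at h4
    exact h4
  obtain ⟨q, hq⟩ := minpoly.isIntegrallyClosed_dvd hz h3
  have hc0 : f.coeff 0 ≠ 0 := by
    intro h
    rw [h] at hu
    simp at hu
  have hdeg : f.reverse.natDegree = f.natDegree := by
    rw [Polynomial.reverse_natDegree, Polynomial.natTrailingDegree_eq_zero.2 (Or.inr hc0),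
      Nat.sub_zero]
  have hq0 : q.natDegree = 0 := by
    have hqne : q ≠ 0 := by
      rintro rfl
      rw [mul_zero] at hq
      exact hfm.ne_zero (Polynomial.reverse_eq_zero.1 hq)
    rw [hq, ← hf, Polynomial.natDegree_mul hfm.ne_zero hqne] at hdeg
    omega
  obtain ⟨m, rfl⟩ : ∃ m, q = C m := ⟨q.coeff 0, Polynomial.eq_C_of_natDegree_eq_zero hq0⟩
  have e1 : f.reverse.eval 1 = f.eval 1 := by
    let _ : Invertible (1 : ℤ) := ⟨1, by norm_num, by norm_num⟩
    have h4 := Polynomial.eval₂_reverse_mul_pow (RingHom.id ℤ) 1 f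
    rw [one_pow, mul_one] at h4
    exact h4
  have e2 : f.reverse.eval (-1) * (-1) ^ f.natDegree = f.eval (-1) := by
    let _ : Invertible (-1 : ℤ) := ⟨-1, by norm_num, by norm_num⟩
    have h4 := Polynomial.eval₂_reverse_mul_pow (RingHom.id ℤ) (-1) f
    exact h4
  rw [hodd.neg_one_pow] at e2
  rw [hq, ← hf, eval_mul, eval_C] at e1 e2
  by_cases hm : m = 1
  · subst hm
    have h4 : f.eval (-1) = 0 := by linarith
    have h5 := eq_int_of_root hirr (minpoly.aeval ℤ z) (-1) h4
    exact hroot 2 (by norm_num) (by rw [h5]; norm_num)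
  · have h4 : f.eval 1 = 0 := by
      have h6 : f.eval 1 * (m - 1) = 0 := by linarith
      rcases mul_eq_zero.1 h6 with h7 | h7
      · exact h7
      · exact absurd (by linarith) hm
    have h5 := eq_int_of_root hirr (minpoly.aeval ℤ z) 1 h4
    exact hroot 1 one_pos (by rw [h5]; norm_num)

end Pool.Agent.R701.UG
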