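import Mathlib
import Pool.Agent.R701.UG.Gap
import Pool.Agent.H785R3.GrowthR

/-!
# The gap for metabelian groups and Lehmer's problem for reciprocal units
-/

set_option autoImplicit false

open Filter Topology Polynomial
open scoped Pointwise commutatorElement TensorProduct ComplexConjugate

namespace Pool.Agent.R701.UG

open Pool.Agent Pool.Agent.W963.GE Pool.Agent.TH53.UG

universe u

/-- units which are not roots of unity -/
def UnitNR (x : ℂ) : Prop :=
  x ≠ 0 ∧ IsIntegral ℤ x ∧ IsIntegral ℤ x⁻¹ ∧ ∀ m > 0, x ^ m ≠ 1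

def CTwo (c : ℝ) : Prop :=
  ∀ (G : Type) [Group G] (S : Set G), S.Finite → Subgroup.closure S = ⊤ →
    derivedSeries G 2 = ⊥ → Group.IsVirtuallyNilpotent G ∨ c ≤ H746UG.rho S

def CK (k : ℕ) (c : ℝ) : Prop :=
  ∀ (G : Type) [Group G] (S : Set G), S.Finite → Subgroup.closure S = ⊤ →
    (Group.IsNilpotent ((⊤ : Subgroup G).lowerCentralSeries k) ∨
      ¬ Group.IsVirtuallyNilpotent (G ⧸ ⁅(⊤ : Subgroup G).lowerCentralSeries k,
        (⊤ : Subgroup G).lowerCentralSeries k⁆)) →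
    Group.IsVirtuallyNilpotent G ∨ c ≤ H746UG.rho S

def Lehm : Prop :=
  ∃ ε > 0, ∀ x : ℂ, UnitNR x → ¬ NotRecip x → 1 + ε ≤ MM x

theorem lehm_of_two {c : ℝ} (hc : 0 < c) (h : CTwo c) : Lehm := by
  refine ⟨Real.exp c - 1, by have := Real.add_one_lt_exp hc.ne'; linarith, ?_⟩
  intro x hx _
  rcases h (H746UG.AG x hx.1) (H746UG.AS x hx.1) (H746UG.AS_finite x hx.1)
    (H746UG.AS_gen x hx.1) (H746UG.aff_metabelian x hx.1) with h4 | h4
  · exact absurd h4 (H746UG.aff_not_vn x hx.1 hx.2.2.2)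
  · rw [H746UG.rho_AS x hx.1] at h4
    have h5 := h4.trans (eta_le x hx.1 hx.2.1)
    have hM : 0 < MM x := zero_lt_one.trans_le (MM_ge x hx.2.1)
    have h6 := Real.exp_le_exp.2 h5
    rw [Real.exp_log hM] at h6
    linarith

theorem eta_of_lehm {ε : ℝ} (hε : 0 < ε)
    (h : ∀ x : ℂ, UnitNR x → ¬ NotRecip x → 1 + ε ≤ MM x) (x : ℂ) (h0 : x ≠ 0)
    (hroot : ∀ m > 0, x ^ m ≠ 1) : min (1 / 8) (Real.log (base (1 + ε))) ≤ H746UG.eta x := by
  by_cases hi : IsIntegral ℤ x ∧ IsIntegral ℤ x⁻¹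
  · have hM : 0 < MM x := zero_lt_one.trans_le (MM_ge x hi.1)
    refine le_trans ?_ (eta_ge x h0 hi.1)
    by_cases hr : NotRecip x
    · exact (min_le_left _ _).trans (base_eighth hM (one_le_of_notRecip hi.1 h0 hi.2 hr))
    · refine (min_le_right _ _).trans ?_
      apply Real.log_le_log (base_pos _)
      exact base_mono (by linarith) (h x ⟨h0, hi.1, hi.2, hroot⟩ hr)
  · rw [H746UG.eta_eq_log_two x h0 hi]
    refine (min_le_left _ _).trans ?_
    have := Real.log_two_gt_d9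
    linarith

theorem ck_of_lehm (h : Lehm) (k : ℕ) (hk : 1 ≤ k) : ∃ c > 0, CK k c := by
  obtain ⟨ε, hε, h⟩ := h
  set c := min (1 / 8) (Real.log (base (1 + ε))) with hc
  have hc0 : 0 < c := lt_min (by norm_num) (Real.log_pos (one_lt_base (by linarith)))
  have hpos : (0 : ℝ) < ((2 ^ (k + 1) : ℕ) : ℝ) := by positivity
  refine ⟨c / ((2 ^ (k + 1) : ℕ) : ℝ), div_pos hc0 hpos, ?_⟩
  intro G _ S hS hgen hnil
  by_cases hnv : Group.IsVirtuallyNilpotent G
  · exact Or.inl hnv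
  right
  obtain ⟨x, hx0, hx, hn⟩ := (H785R3.GrowthA.main_dig hS hgen hk).resolve_right (by
    rintro ⟨h4, h5⟩
    rcases hnil with h6 | h6
    · exact hnv (h5 h6)
    · exact h6 h4)
  exact (div_le_div_of_nonneg_right (eta_of_lehm hε h x hx0 hx) hpos.le).trans
    (rho_of_dig S (by positivity) hx0 hn)

theorem two_of_ck {c : ℝ} (h : CK 1 c) : CTwo c := by
  intro G _ S hS hgen hmet
  apply h G S hS hgen
  left
  have e : (⊤ : Subgroup G).lowerCentralSeries 1 = commutator G := rfl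
  rw [e]
  have hab : ∀ a b : commutator G, a * b = b * a := by
    intro a b
    have h4 : ⁅(a : G), (b : G)⁆ ∈ derivedSeries G 2 := by
      rw [derivedSeries_succ, derivedSeries_one]
      exact Subgroup.commutator_mem_commutator a.2 b.2
    rw [hmet, Subgroup.mem_bot, commutatorElement_eq_one_iff_mul_comm] at h4
    exact Subtype.ext h4
  let _ : CommGroup (commutator G) :=
    { (inferInstance : Group (commutator G)) with mul_comm := hab }
  exact CommGroup.isNilpotent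

theorem equiv_all : ((∃ c > 0, CTwo c) ↔ Lehm) ∧ ((∀ k : ℕ, 1 ≤ k → ∃ c > 0, CK k c) ↔ Lehm) := by
  refine ⟨⟨fun ⟨c, hc, h⟩ => lehm_of_two hc h, fun h => ?_⟩, ⟨fun h => ?_, fun h k hk =>
    ck_of_lehm h k hk⟩⟩
  · obtain ⟨c, hc, h1⟩ := ck_of_lehm h 1 le_rfl
    exact ⟨c, hc, two_of_ck h1⟩
  · obtain ⟨c, hc, h1⟩ := h 1 le_rfl
    exact lehm_of_two hc (two_of_ck h1)

end Pool.Agent.R701.UG
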